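import Mathlib
import Pool.Agent.H21.CST.Def

/-!
# SQA: sums of squares of forms, asymptotic value of the generic rank (definitions)
-/

set_option autoImplicit false

namespace Pool.SQA

open Finset Pool.CST

/-! ### The conjectured value -/

/-- The conjectured generic `2`-rank of forms of degree `2 d` in `n` variables: the least `s` with
`s * N_n(d) - s (s - 1) / 2 ≥ N_n(2 d)`. -/
noncomputable def cw (n d : ℕ) : ℕ := sInf {s : ℕ | mon n (2 * d) + s.choose 2 ≤ s * mon n d}

/-- The limit of `cw n d / N_n(d)` as `n` tends to infinity. -/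
noncomputable def cc (d : ℕ) : ℝ := 1 - √(1 - 2 / (((2 * d).choose d : ℕ) : ℝ))

/-! ### Moves -/

/-- The linear functional of the set `B`: the sum over `B` minus `d` times the coordinate `o B`. -/
def el {m : ℕ} {K : Type} [CommRing K] (d : ℕ) (o : Finset (Fin m) → Fin m) (B : Finset (Fin m))
    (y : Fin m → K) : K :=
  ∑ i ∈ B, y i - (d : K) * y (o B)

/-- The move of the set `B`: adds `t * lam B * el B y` to all coordinates in `B`. -/
def mv {m : ℕ} {K : Type} [CommRing K] (d : ℕ) (o : Finset (Fin m) → Fin m)
    (lam : Finset (Fin m) → K) (B : Finset (Fin m)) (t : K) (y : Fin m → K) : Fin m → K :=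
  fun i => if i ∈ B then y i + t * lam B * el d o B y else y i

/-- The vectors with support in `B`. -/
def sp {m : ℕ} (K : Type) [Zero K] [Fintype K] [DecidableEq K] (B : Finset (Fin m)) :
    Finset (Fin m → K) :=
  univ.filter (fun y => ∀ i, i ∉ B → y i = 0)

/-- The pairs `{B, I \ B}` of complementary `d`-subsets of `I`, represented by the member that
contains `o I`. -/
abbrev Pr {m : ℕ} (d : ℕ) (o : Finset (Fin m) → Fin m) (I : Finset (Fin m)) : Type :=
  {B : Finset (Fin m) // B ⊆ I ∧ B.card = d ∧ o I ∈ B}

/-- The moves of a pair. -/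
def tau {m : ℕ} {K : Type} [CommRing K] (p d : ℕ) [Algebra (ZMod p) K]
    (o : Finset (Fin m) → Fin m) (lam : Finset (Fin m) → K) (I : Finset (Fin m))
    (B : Pr d o I) (a : ZMod p × ZMod p) (y : Fin m → K) : Fin m → K :=
  mv d o lam B.1 (algebraMap (ZMod p) K a.1) (mv d o lam (I \ B.1) (algebraMap (ZMod p) K a.2) y)

/-! ### Words -/

/-- The action of a word; the first letter acts first. -/
def act {J A Y : Type} (τ : J → A → Y → Y) : List (J × A) → Y → Y
  | [], y => y
  | l :: w, y => act τ w (τ l.1 l.2 y)

/-- Reduced words: nontrivial letters, consecutive letters of different pairs. -/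
def Red {J A : Type} [Zero A] (w : List (J × A)) : Prop :=
  (∀ l ∈ w, l.2 ≠ 0) ∧ w.IsChain (fun l l' => l.1 ≠ l'.1)

end Pool.SQA
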