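import Mathlib
import Pool.Agent.H17.SQA.Defs

/-!
# SQA: sums of squares of forms, asymptotic value of the generic rank (statements of the rows)

MP_27fe77_ag, case `k = 2`: for fixed `d` and `n → ∞` the generic `2`-rank of forms of degree `2 d`
in `n` variables is asymptotic to the conjectured value, i.e. to
`(1 - √(1 - 2 / C(2d, d))) * N_n(d)`.
Row `XXX` = file `Pool/Agent/H<k>/SQA/XXX.lean`, `theorem Pool.SQA.t_xxx : XXXStmt` (needs as
hypotheses, in the order of the column `needs`).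
-/

set_option autoImplicit false

namespace Pool.SQA

open Finset MvPolynomial Pool.FOS Pool.CST

/-! ## Independent rows -/

/-- **COD** (60). Characters of `ZMod p` with a uniform bound: `χ j t = exp (2 π i (j + k) t / p)`,
`j < p - k`. If `f` is orthogonal to them then only `k` values `F a = ∑ t, ζ^(a t) f t` are
nonzero; `p * f 0 = ∑ a, F a` and `∑ a, ‖F a‖^2 = p * ∑ t, ‖f t‖^2`; Cauchy-Schwarz. -/
def CODStmt : Prop :=
  ∀ (p k : ℕ) [Fact p.Prime], k ≤ p →
    ∃ χ : Fin (p - k) → ZMod p → ℂ,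
      (∀ j, χ j 0 = 1) ∧ (∀ j t t', χ j (t + t') = χ j t * χ j t') ∧
      ∀ f : ZMod p → ℂ, (∀ j, ∑ t, χ j t * f t = 0) →
        (p : ℝ) * ‖f 0‖ ^ 2 ≤ k * ∑ t, ‖f t‖ ^ 2

/-- **ORB** (110). Few functions of the coordinates in `B` that give all conditions in the
direction of `B`.  The orbits `{mv B t x : t ∈ ZMod p}`, `x ∈ sp B`, `el B x ≠ 0`, have `p`
elements (`el B (mv B t x) = el B x` since `|B| = d`; `mv B t (mv B t' x) = mv B (t + t') x`);
choose representatives (at most `q^d / p`, `|sp B| = q^d`). For every representative `x` and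
`j < e` the function
`g y = ∑ t, if y_B = mv B t x then χ j t else 0`, `y_B = B.piecewise y 0`, and for every `x ∈ sp B`
with `el B x = 0` the function `g y = if y_B = x then 1 else 0` (there are at most `q^(d-1)` such
`x` as `el B` is a nonzero functional: `2 ≤ d`).  For a point `x' = mv B s x` of the orbit:
`χ j s * ∑ t, χ j t * ξ (mv B t x' + z) = ∑ t, χ j (s + t) * ξ (mv B (s + t) x + z)`, and
`χ j s ≠ 0`. -/
def ORBStmt : Prop :=
  ∀ (p m d e : ℕ) [Fact p.Prime] (K : Type) [Field K] [Fintype K] [DecidableEq K]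
    [Algebra (ZMod p) K] (o : Finset (Fin m) → Fin m) (lam : Finset (Fin m) → K)
    (B : Finset (Fin m)) (χ : Fin e → ZMod p → ℂ), 2 ≤ d → B.card = d → o B ∈ B → lam B ≠ 0 →
    (∀ j, χ j 0 = 1) → (∀ j t t', χ j (t + t') = χ j t * χ j t') →
    ∃ (s : ℕ) (g : Fin s → (Fin m → K) → ℂ),
      p * s ≤ e * Fintype.card K ^ d + p * Fintype.card K ^ (d - 1) ∧
      (∀ j, DependsOn (g j) (B : Set (Fin m))) ∧
      ∀ (ξ : (Fin m → K) → ℂ) (z : Fin m → K), (∀ i ∈ B, z i = 0) →
        (∀ j, ∑ x ∈ sp K B, g j x * ξ (x + z) = 0) →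
        ∀ x ∈ sp K B, (el d o B x = 0 → ξ (x + z) = 0) ∧
          ∀ j, ∑ t : ZMod p, χ j t * ξ (mv d o lam B (algebraMap (ZMod p) K t) x + z) = 0

/-- **NRG** (150). Energy of reduced words.  Let `a_0 = 1`, `a_(r+1) = 1 + (|J| - 1) β a_r`, so
`a_r ≥ r + 1`.  For `ξ ∈ X`, `y ∈ Y0`, a pair `j0` and `r ≤ R` the sum of `‖ξ (act w y)‖ ^ 2` over
the reduced words `w` of length at most `r` whose first letter is not of the pair `j0` is at least
`a_r ‖ξ y‖ ^ 2` (induction on `r`: split off the first letter; the remaining word is reduced and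
does not start with the pair of this letter).  The sum over all reduced words of length at most `R`
is not smaller.  For `y ∈ G` the points `act w y` are different, so this sum is at most
`∑ y, ‖ξ y‖ ^ 2`.  Hence `(R + 1) ‖ξ y‖ ^ 2 ≤ ∑ y', ‖ξ y'‖ ^ 2`, `y ∈ G`, and trivially
`‖ξ y‖ ^ 2 ≤ ∑ y', ‖ξ y'‖ ^ 2` for `y ∈ Y0`.  If `e_1, ..., e_D` is an orthonormal basis of `X` then
`D = ∑ y, κ y`, `κ y = ∑ i, ‖e_i y‖ ^ 2`; with `ξ = ∑ i, conj (e_i y) e_i`: `ξ y = κ y`,
`∑ y', ‖ξ y'‖ ^ 2 = κ y`, so `κ y ≤ 1 / (R + 1)` for `y ∈ G`, `κ y ≤ 1`, `κ y = 0` off `Y0`. -/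
def NRGStmt : Prop :=
  ∀ (J A Y : Type) [Fintype J] [DecidableEq J] [Fintype A] [DecidableEq A] [AddCommGroup A]
    [Fintype Y] [DecidableEq Y] (τ : J → A → Y → Y) (Y0 G : Finset Y)
    (X : Submodule ℂ (Y → ℂ)) (β : ℝ) (R : ℕ),
    (∀ j a, ∀ y ∈ Y0, τ j a y ∈ Y0) → (∀ ξ ∈ X, ∀ y, y ∉ Y0 → ξ y = 0) → 0 ≤ β →
    1 ≤ ((Fintype.card J : ℝ) - 1) * β →
    (∀ ξ ∈ X, ∀ y ∈ Y0, ∀ j,
      β * ‖ξ y‖ ^ 2 ≤ ∑ a ∈ (univ : Finset A).erase 0, ‖ξ (τ j a y)‖ ^ 2) →
    (∀ y ∈ G, ∀ w w' : List (J × A), Red w → Red w' → w.length ≤ R → w'.length ≤ R →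
      act τ w y = act τ w' y → w = w') →
    (Module.finrank ℂ X : ℝ) ≤ (Y0.card : ℝ) / (R + 1) + ((Y0 \ G).card : ℝ)

/-- **WIN** (90). Two different reduced words that agree at `y` give a nonempty reduced word
that fixes `y`.  Induction on the sum of the lengths, looking at the LAST letters: same pair `j`
and same element: remove both (apply `τ j (-a)`); same pair and `a ≠ b`: replace `w = u ++ [(j, a)]`,
`w' = u' ++ [(j, b)]` by `u` and `u' ++ [(j, b - a)]`; one word empty: done; different pairs: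
`v = w ++ (w' reversed with the letters (j, -a))`. -/
def WINStmt : Prop :=
  ∀ (J A Y : Type) [AddCommGroup A] (τ : J → A → Y → Y),
    (∀ j y, τ j 0 y = y) → (∀ j a b y, τ j a (τ j b y) = τ j (a + b) y) →
    ∀ (y : Y) (w w' : List (J × A)), Red w → Red w' → w ≠ w' → act τ w y = act τ w' y →
      ∃ v : List (J × A), v ≠ [] ∧ Red v ∧ v.length ≤ w.length + w'.length ∧ act τ v y = y

/-- **WRD** (170). Reduced words act nontrivially, except for few values of `z`.
Work over `R = (ZMod p)[X]`, `lam B = X ^ om B`.  For a letter `(B, (t, t'))` the leading set is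
`B` if `t ≠ 0` and (`t' = 0` or `om (I \ B) < om B`), and `I \ B` otherwise; the leading degree is
`om` of the leading set.  Start with `y0 = ` the unit vector of an element `i` of the leading set
`C` of the first letter with `el C y0 ≠ 0` (`i ≠ o C`: value `1`; `i = o C`: `1 - d`; any element
of `C` other than `o C`; `2 ≤ d`).
Claim (induction on the word, last letter treated last): all coordinates of `act v y0` have degree
at most `D`, the sum of the leading degrees, and the coefficients of `X ^ D` are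
`c * (1 if i ∈ C, else 0)`, `c ≠ 0`, `C` the leading set of the last letter.  Step: `el B` of the
vector `1_C` with `B`, `C` of different pairs, `0 < |B ∩ C| < d`: it is
`|B ∩ C|` or `|B ∩ C| - d`, not zero in `ZMod p` as `d < p`.  Then `f = ` coordinate `i ∈ C` of
`act v y0` minus the one of `y0`: degree `D ≥ 1`.  Evaluation at `z` commutes with everything. -/
def WRDStmt : Prop :=
  ∀ (p m d : ℕ) [Fact p.Prime] (o : Finset (Fin m) → Fin m) (om : Finset (Fin m) → ℕ)
    (I : Finset (Fin m)), 2 ≤ d → d < p → I.card = 2 * d → (∀ B, B.Nonempty → o B ∈ B) →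
    (∀ B, 1 ≤ om B) → Function.Injective om →
    ∀ v : List (Pr d o I × (ZMod p × ZMod p)), v ≠ [] → Red v →
      ∃ f : Polynomial (ZMod p), f ≠ 0 ∧
        ∀ (K : Type) [Field K] [Algebra (ZMod p) K] (z : K), Polynomial.aeval z f ≠ 0 →
          ∃ y : Fin m → K, (∀ i, i ∉ I → y i = 0) ∧
            act (tau p d o (fun B => z ^ om B) I) v y ≠ y

/-- **FIX** (50). Fixed points of a linear map that moves a vector `y0` supported in `I`: the map
`(y, c) ↦ y + c • y0` from `{y ∈ sp I : T y = y} × K` to `sp I` is injective;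
`|sp I| = q ^ |I|`. -/
def FIXStmt : Prop :=
  ∀ (m : ℕ) (K : Type) [Field K] [Fintype K] [DecidableEq K] (I : Finset (Fin m))
    (T : (Fin m → K) →ₗ[K] (Fin m → K)), (∃ y, (∀ i, i ∉ I → y i = 0) ∧ T y ≠ y) →
    (sp K I).card = Fintype.card K ^ I.card ∧
    ((sp K I).filter (fun y => T y = y)).card * Fintype.card K ≤ Fintype.card K ^ I.card

/-- **FLD** (40). A large finite field and an element that is not a root: `GaloisField p s`, `s`
large, has more elements than `f` (times `X`) has roots. -/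
def FLDStmt : Prop :=
  ∀ (p : ℕ) [Fact p.Prime] (f : Polynomial (ZMod p)) (N : ℕ), f ≠ 0 →
    ∃ (K : Type) (_ : Field K) (_ : Fintype K) (_ : DecidableEq K) (_ : Algebra (ZMod p) K) (z : K),
      N ≤ Fintype.card K ∧ z ≠ 0 ∧ Polynomial.aeval z f ≠ 0

/-- **MAT** (120). Spaces of matrices of small dimension.  Induction on `a`.  `a = 0`: as
`dim X ≤ b`, choose one `v` after the other such that the dimension of `{M ∈ X : M v = 0}` drops.
Step `a → a + 1`, `dim X < (a + 2) (b + 1)`: let `r` be the maximum over `φ : α → ℂ` of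
the dimension of `φ X = {φ M : M ∈ X}`, `(φ M) z = ∑ x, φ x * M x z`, attained at `φ0`.  If
`b + 1 ≤ r`: the space `{M ∈ X : φ0 M = 0}` has dimension `dim X - r < (a + 1) (b + 1)`; use the
induction hypothesis and add `φ0`.  If `r ≤ b`: for `M ∈ X` with `φ0 M = 0` and every `φ` we have
`φ M ∈ φ0 X` (else take `M_1, ..., M_r` with `φ0 M_i` a basis of `φ0 X`; the `r + 1` vectors
`(φ0 + t φ) M_i`, `φ M = (φ0 + t φ) M / t` are linearly independent for small `t ≠ 0` as they are so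
for `t = 0` (`LinearIndependent.eventually`), which contradicts the maximality of `r`).  Choose
`v_1, ..., v_b` with: `w ∈ φ0 X` and `w · v_j = 0` for all `j` imply `w = 0`.  If `M ∈ X` and
`M v_j = 0` for all `j` then `φ0 M = 0` and then all rows of `M` are zero. -/
def MATStmt : Prop :=
  ∀ (α β : Type) [Fintype α] [Fintype β] (X : Submodule ℂ (α → β → ℂ)) (a b : ℕ),
    Module.finrank ℂ X < (a + 1) * (b + 1) →
    ∃ (u : Fin a → α → ℂ) (v : Fin b → β → ℂ), ∀ M ∈ X, (∀ i z, ∑ x, u i x * M x z = 0) →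
      (∀ j x, ∑ z, M x z * v j z = 0) → M = 0

/-- **DUA** (90). Duality: the linear map `(h B j) ↦ ∑ g B j * h B j` to the functions that depend
on `I` (equivalently: functions on `sp I`) is onto if its transpose is injective. (A proper
subspace of functions on `sp I` is killed by some `ξ ≠ 0`: `∑ y ∈ sp I, ξ y * φ y = 0`; take `h B j`
the indicator function of `y_(I \ B) = z`; for `y ∈ sp I`, `y = x + z` with `x ∈ sp B`,
`z ∈ sp (I \ B)`.) -/
def DUAStmt : Prop :=
  ∀ (m d : ℕ) (K : Type) [AddCommGroup K] [Fintype K] [DecidableEq K] (I : Finset (Fin m))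
    (s : Finset (Fin m) → ℕ) (g : ∀ B : Finset (Fin m), Fin (s B) → (Fin m → K) → ℂ),
    (∀ B j, DependsOn (g B j) (B : Set (Fin m))) →
    (∀ ξ : (Fin m → K) → ℂ, (∀ y, y ∉ sp K I → ξ y = 0) →
      (∀ B ∈ I.powersetCard d, ∀ j, ∀ z ∈ sp K (I \ B),
        ∑ x ∈ sp K B, g B j x * ξ (x + z) = 0) → ξ = 0) →
    ∀ φ : (Fin m → K) → ℂ, DependsOn φ (I : Set (Fin m)) →
      ∃ h : ∀ B : Finset (Fin m), Fin (s B) → (Fin m → K) → ℂ,
        (∀ B j, DependsOn (h B j) ((I \ B : Finset (Fin m)) : Set (Fin m))) ∧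
        ∀ y, φ y = ∑ B ∈ I.powersetCard d, ∑ j, g B j y * h B j y

/-! ## Assembly of the combinatorial part -/

/-- **DIM** (150; needs NRG, WIN, WRD, FIX). The dimension bound.  `f` = product of the
polynomials of WRD over the nonempty reduced words of length at most `2 R`, `W` = the number of
these words (a finite set of lists, it does not depend on `K`).  `J = Pr d o I`,
`|J| = C(2d-1, d-1)` (subsets of `I \ {o I}` with `d - 1` elements), `A = ZMod p × ZMod p`,
`τ = tau`, `Y0 = sp I`, `β = p^2 / k^2 - 1`, `G` = the `y ∈ sp I` not fixed by the nonempty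
reduced words of length at most `2 R`; `|Y0 \ G| ≤ W q^(2d-1)` by FIX (`act τ v` is linear).  WIN
gives the injectivity.  `tau` composes: `mv B t (mv B t' y) = mv B (t + t') y` for `|B| = d`, and
moves of disjoint sets commute. -/
def DIMStmt : Prop :=
  ∀ (p k m d R : ℕ) [Fact p.Prime] (o : Finset (Fin m) → Fin m) (om : Finset (Fin m) → ℕ)
    (I : Finset (Fin m)), 2 ≤ d → d < p → 1 ≤ k → k ≤ p → I.card = 2 * d →
    (∀ B, B.Nonempty → o B ∈ B) → (∀ B, 1 ≤ om B) → Function.Injective om →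
    p ^ 2 + (2 * d - 1).choose (d - 1) * k ^ 2 ≤ (2 * d - 1).choose (d - 1) * p ^ 2 →
    ∃ (f : Polynomial (ZMod p)) (W : ℕ), f ≠ 0 ∧
      ∀ (K : Type) [Field K] [Fintype K] [DecidableEq K] [Algebra (ZMod p) K] (z : K),
        Polynomial.aeval z f ≠ 0 →
        ∀ X : Submodule ℂ ((Fin m → K) → ℂ), (∀ ξ ∈ X, ∀ y, y ∉ sp K I → ξ y = 0) →
          (∀ ξ ∈ X, ∀ y ∈ sp K I, ∀ B : Finset (Fin m), B ⊆ I → B.card = d →
            (p : ℝ) ^ 2 * ‖ξ y‖ ^ 2 ≤ (k : ℝ) ^ 2 * ∑ t : ZMod p, ∑ t' : ZMod p,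
              ‖ξ (mv d o (fun B => z ^ om B) B (algebraMap (ZMod p) K t)
                (mv d o (fun B => z ^ om B) (I \ B) (algebraMap (ZMod p) K t') y))‖ ^ 2) →
          (Module.finrank ℂ X : ℝ) ≤ (Fintype.card K : ℝ) ^ (2 * d) / (R + 1) +
            W * (Fintype.card K : ℝ) ^ (2 * d - 1)

/-- **KEY** (200; needs COD, ORB, FLD, MAT, DUA, DIM). See the plan. -/
def KEYStmt : Prop :=
  ∀ (d m : ℕ) (ε : ℝ), 2 ≤ d → 0 < ε →
    ∃ (K : Type) (_ : Fintype K) (s : Finset (Fin m) → ℕ)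
      (g : ∀ B : Finset (Fin m), Fin (s B) → (Fin m → K) → ℂ),
      1 ≤ Fintype.card K ∧
      (∀ B : Finset (Fin m), B.card = d → (s B : ℝ) ≤ (cc d + ε) * (Fintype.card K : ℝ) ^ d) ∧
      (∀ B j, DependsOn (g B j) (B : Set (Fin m))) ∧
      ∀ I : Finset (Fin m), I.card = 2 * d → ∀ φ : (Fin m → K) → ℂ,
        DependsOn φ (I : Set (Fin m)) →
        ∃ h : ∀ B : Finset (Fin m), Fin (s B) → (Fin m → K) → ℂ,
          (∀ B j, DependsOn (h B j) ((I \ B : Finset (Fin m)) : Set (Fin m))) ∧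
          ∀ y, φ y = ∑ B ∈ I.powersetCard d, ∑ j, g B j y * h B j y

/-! ## Forms -/

/-- **ASA** (220). From KEY to forms.  Variables `X (e (i, x, ρ))`,
`e : Fin m × K × Fin r ↪ Fin n`.
Generators: (1) all monomials of degree `d` in `n` variables except those of the form
`∏ i ∈ B, X (e (i, x i, ρ i))`, `|B| = d`; there are `t` of them, `t + C(m,d) (q r)^d = mon n d`
(count of the exceptional ones: `B`, and the values of `(x, ρ)` on `B`);
(2) for `|B| = d`, `j < s B` and `ρ : B → Fin r` (extended by `0` outside `B`)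
`G = ∑ over x : B → K of g B j x * ∏ i ∈ B, X (e (i, x i, ρ i))`.
Every monomial of degree `2 d` is a combination `∑ (generator) * (form of degree d)`: if it is not
`∏ i ∈ I, X (e (i, y i, ρ i))`, `|I| = 2 d`, then it contains a variable outside the range of `e` or
two variables with the same `i` (or the same variable twice), hence it is divisible by a monomial
of type (1) (`2 ≤ d`).  If it is, apply the hypothesis to `φ` = indicator function of the values
of `y` on `I`: `φ = ∑ B j, g B j * h B j` and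
`∏ i ∈ I, X (e (i, y i, ρ i)) = ∑ over y' : I → K of φ y' * ∏ i ∈ I, X (e (i, y' i, ρ i)) =
∑ B, j, G (B, j, ρ on B) * (∑ over z : I \ B → K of h B j z * ∏ i ∈ I \ B, X (e (i, z i, ρ i)))`. -/
def ASAStmt : Prop :=
  ∀ (d m r n : ℕ) (K : Type) [Fintype K] (s : Finset (Fin m) → ℕ)
    (g : ∀ B : Finset (Fin m), Fin (s B) → (Fin m → K) → ℂ),
    2 ≤ d → 1 ≤ Fintype.card K → 1 ≤ n → m * (Fintype.card K * r) ≤ n →
    (∀ B j, DependsOn (g B j) (B : Set (Fin m))) →
    (∀ I : Finset (Fin m), I.card = 2 * d → ∀ φ : (Fin m → K) → ℂ,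
        DependsOn φ (I : Set (Fin m)) →
        ∃ h : ∀ B : Finset (Fin m), Fin (s B) → (Fin m → K) → ℂ,
          (∀ B j, DependsOn (h B j) ((I \ B : Finset (Fin m)) : Set (Fin m))) ∧
          ∀ y, φ y = ∑ B ∈ I.powersetCard d, ∑ j, g B j y * h B j y) →
    ∃ t : ℕ, t + m.choose d * (Fintype.card K * r) ^ d = mon n d ∧
      Onto n 2 d (t + ∑ B ∈ (univ : Finset (Fin m)).powersetCard d, s B * r ^ d)

/-- **MON** (60). Growth of the number of monomials: `mon n D = C(n - 1 + D, D)`, and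
`C(n - 1 + D, D) / n ^ D → 1 / D!`. -/
def MONStmt : Prop :=
  ∀ D : ℕ, Filter.Tendsto (fun n : ℕ => (mon n D : ℝ) / (n : ℝ) ^ D) Filter.atTop
    (nhds (1 / (D.factorial : ℝ)))

/-- The upper bound. -/
def UPPStmt : Prop :=
  ∀ (d : ℕ) (ε : ℝ), 2 ≤ d → 0 < ε → ∃ n0 : ℕ, ∀ n ≥ n0, ∃ s : ℕ,
    (s : ℝ) ≤ (cc d + ε) * mon n d ∧ Onto n 2 d s

/-- **UPP** (120; needs KEY, ASA, MON). Fix `m` with `C(m,d) d! / m^d ≥ 1 - ε / 4` (this tends to
`1`), take `K`, `q = |K|`, from KEY for `ε / 4`, `r = n / (m q)`, so `q r ≥ n / m - q`.  The number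
of forms is at most `mon n d - C(m,d) (q r)^d (1 - cc d - ε / 4)` and
`C(m,d) (q r)^d / mon n d → C(m,d) d! / m^d`. (If `1 - cc d - ε / 4 < 0` use
`C(m,d) (q r)^d ≤ mon n d`; `0 ≤ cc d ≤ 1`.) -/
def UPPNeeds : Prop := UPPStmt

/-- **TRD** (130). The lower bound: transcendence degree.  As in `H2/TRN/LOW.lean` (`ph`, `Mx`,
`Ex`): if `GenLe n 2 d t` then the `mon n (2d)` polynomials `ph n 2 d t` are algebraically
independent (the argument there).  Let `L` be the fraction field of the polynomial ring in the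
coefficients `a (i, μ)`, `i < t`, `μ ∈ Ex n d`, `A` the matrix `(a (i, μ))`, `G = Aᵀ A` and choose
`t` exponents (`t ≤ mon n d`), `A_s` the `t × t` submatrix: it is invertible over `L`, and
`G = (Aᵀ A_s) (A_sᵀ A_s)⁻¹ (A_sᵀ A)`, so all entries of `G`, hence the values of `ph`, lie in the
subfield generated by the entries of `A_sᵀ A`, which are
`t * mon n d` elements of which `t (t - 1) / 2` occur twice: at most
`t * mon n d - t (t - 1) / 2` elements.  So `mon n (2d) ≤ t * mon n d - C(t, 2)`. -/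
def TRDStmt : Prop :=
  ∀ n d t : ℕ, 1 ≤ n → t ≤ mon n d → t * mon n d < mon n (2 * d) + t.choose 2 → ¬ GenLe n 2 d t

/-- **CWB** (60). `cw n d ≤ mon n d` and `cw` satisfies its inequality: every monomial of degree
`2 d` is a product of two of degree `d`, so `mon n (2d) ≤ N (N + 1) / 2`, `N = mon n d`, i.e. `N` is
in the set. -/
def CWBStmt : Prop :=
  ∀ n d : ℕ, 1 ≤ n → cw n d ≤ mon n d ∧ mon n (2 * d) + (cw n d).choose 2 ≤ cw n d * mon n d

/-- **CWL** (80; needs CWB, MON). Asymptotic lower bound for the conjectured value.  With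
`σ = cw n d / mon n d ≤ 1`: `mon n (2d) / (mon n d)^2 ≤ σ - σ^2 / 2 + σ / (2 mon n d)` and
`mon n (2d) / (mon n d)^2 → (d!)^2 / (2d)! = 1 / C(2d, d)`, hence
`(1 - σ)^2 ≤ 1 - 2 / C(2d, d) + o(1)`. -/
def CWLStmt : Prop :=
  ∀ (d : ℕ) (ε : ℝ), 2 ≤ d → 0 < ε → ∃ n0 : ℕ, ∀ n ≥ n0, (cc d - ε) * mon n d ≤ cw n d

/-- **FIN** (60; needs UPP, TRD, CWB, CWL, `Pool.FOS.TERStmt`). The main theorem. -/
def FINStmt : Prop :=
  ∀ (d : ℕ) (ε : ℝ), 2 ≤ d → 0 < ε → ∃ n0 : ℕ, ∀ n ≥ n0, ∃ r : ℕ, Rk n 2 d r ∧ cw n d ≤ r ∧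
    (r : ℝ) ≤ (1 + ε) * cw n d ∧
    |(r : ℝ) - (1 - √(1 - 2 / (((2 * d).choose d : ℕ) : ℝ))) * mon n d| ≤ ε * mon n d

end Pool.SQA
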