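import Mathlib
import Pool.Agent.H17.SQA.Stmts
import Pool.Agent.H49.FOS.S1

/-!
# SQA, row FIN: the main theorem
-/

set_option autoImplicit false

namespace Pool.SQA

open Finset Pool.FOS Pool.CST

theorem cc_pos (d : ℕ) : 0 < cc d := by
  unfold cc
  have h1 : (0 : ℝ) < (((2 * d).choose d : ℕ) : ℝ) := by
    exact_mod_cast Nat.choose_pos (by omega)
  have h2 : √(1 - 2 / (((2 * d).choose d : ℕ) : ℝ)) < 1 := by
    rw [Real.sqrt_lt' one_pos]
    have : (0 : ℝ) < 2 / (((2 * d).choose d : ℕ) : ℝ) := by positivity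
    linarith
  linarith

theorem not_gen (hTRD : TRDStmt) (n d t : ℕ) (hn : 1 ≤ n) (hc : cw n d ≤ mon n d)
    (ht : t < cw n d) : ¬ GenLe n 2 d t := by
  refine hTRD n d t hn (by omega) ?_
  have h1 : t ∉ {s : ℕ | mon n (2 * d) + s.choose 2 ≤ s * mon n d} :=
    Nat.notMem_of_lt_sInf ht
  simp only [Set.mem_setOf_eq, not_le] at h1
  exact h1

/-- **FIN.** -/
theorem t_fin (hUPP : UPPStmt) (hTRD : TRDStmt) (hCWB : CWBStmt) (hCWL : CWLStmt)
    (hTER : TERStmt) : FINStmt := by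
  intro d ε hd hε
  have hc0 := cc_pos d
  set δ : ℝ := min ε (cc d * ε / (2 + ε)) with hδ
  have hδ0 : 0 < δ := lt_min hε (by positivity)
  have hδ1 : δ ≤ ε := min_le_left _ _
  have hδ2 : δ * (2 + ε) ≤ cc d * ε := by
    have := min_le_right ε (cc d * ε / (2 + ε))
    rw [← hδ] at this
    rw [le_div_iff₀ (by positivity)] at this
    exact this
  obtain ⟨n1, h1⟩ := hUPP d δ hd hδ0
  obtain ⟨n2, h2⟩ := hCWL d δ hd hδ0
  refine ⟨max (max n1 n2) 1, fun n hn => ?_⟩
  have hn1 : n1 ≤ n := le_trans (le_trans (le_max_left _ _) (le_max_left _ _)) hn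
  have hn2 : n2 ≤ n := le_trans (le_trans (le_max_right _ _) (le_max_left _ _)) hn
  have hn3 : 1 ≤ n := le_trans (le_max_right _ _) hn
  obtain ⟨s, hs1, hs2⟩ := h1 n hn1
  have h3 := h2 n hn2
  have hg : GenLe n 2 d s := hTER n 2 d s (by norm_num) hs2
  have hex : ∃ r, GenLe n 2 d r := ⟨s, hg⟩
  classical
  have hr1 := Nat.find_spec hex
  have hr2 := fun t (ht : t < Nat.find hex) => Nat.find_min hex ht
  have hr3 : Nat.find hex ≤ s := Nat.find_min' hex hg
  set r := Nat.find hex with hr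
  have hcr : cw n d ≤ r := by
    by_contra hcon
    exact not_gen hTRD n d r hn3 (hCWB n d hn3).1 (not_le.1 hcon) hr1
  have hrs : (r : ℝ) ≤ (cc d + δ) * mon n d := le_trans (by exact_mod_cast hr3) hs1
  have hcr' : (cw n d : ℝ) ≤ r := by exact_mod_cast hcr
  have hN : (0 : ℝ) ≤ mon n d := Nat.cast_nonneg _
  refine ⟨r, ⟨hr1, hr2⟩, hcr, ?_, ?_⟩
  · have h4 : (cc d + δ) ≤ (1 + ε) * (cc d - δ) := by nlinarith
    calc (r : ℝ) ≤ (cc d + δ) * mon n d := hrs
      _ ≤ (1 + ε) * (cc d - δ) * mon n d := mul_le_mul_of_nonneg_right h4 hN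
      _ = (1 + ε) * ((cc d - δ) * mon n d) := by ring
      _ ≤ (1 + ε) * cw n d := mul_le_mul_of_nonneg_left h3 (by linarith)
  · change |(r : ℝ) - cc d * mon n d| ≤ _
    rw [abs_le]
    have h5 : δ * (mon n d : ℝ) ≤ ε * mon n d := mul_le_mul_of_nonneg_right hδ1 hN
    constructor
    · nlinarith
    · nlinarith

end Pool.SQA
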