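import Mathlib
import Pool.Agent.H17.SQA.Stmts

/-!
# SQA, row KEY
-/

set_option autoImplicit false

namespace Pool.SQA

open Finset

namespace KEYP

theorem mem_sp {m : ℕ} {K : Type} [Zero K] [Fintype K] [DecidableEq K] {B : Finset (Fin m)}
    {y : Fin m → K} : y ∈ sp K B ↔ ∀ i, i ∉ B → y i = 0 := by
  unfold sp
  rw [mem_filter]
  exact ⟨fun h => h.2, fun h => ⟨mem_univ _, h⟩⟩

section
variable {m : ℕ} {K : Type} [CommRing K] {d : ℕ} {o : Finset (Fin m) → Fin m}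
  {lam : Finset (Fin m) → K}

theorem el_add (B : Finset (Fin m)) (x z : Fin m → K) (hz : ∀ i ∈ B, z i = 0) (ho : o B ∈ B) :
    el d o B (x + z) = el d o B x := by
  unfold el
  have h1 : ∑ i ∈ B, (x + z) i = ∑ i ∈ B, x i :=
    sum_congr rfl (fun i hi => by rw [Pi.add_apply, hz i hi, add_zero])
  rw [h1, Pi.add_apply, hz _ ho, add_zero]

theorem mv_add (B : Finset (Fin m)) (t : K) (x z : Fin m → K) (hz : ∀ i ∈ B, z i = 0)
    (ho : o B ∈ B) : mv d o lam B t (x + z) = mv d o lam B t x + z := by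
  funext i
  unfold mv
  rw [Pi.add_apply, el_add B x z hz ho]
  by_cases hi : i ∈ B
  · simp only [hi, if_true, Pi.add_apply, hz i hi]
    ring
  · simp only [hi, if_false, Pi.add_apply]

theorem mv_zero (B : Finset (Fin m)) (y : Fin m → K) : mv d o lam B 0 y = y := by
  funext i
  unfold mv
  split_ifs <;> simp

end

/-- The functions that satisfy all conditions in the directions of the `d`-subsets of `I`. -/
def XI {m : ℕ} (K : Type) [Field K] [Fintype K] [DecidableEq K] (p d e : ℕ) [Algebra (ZMod p) K]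
    [NeZero p] (o : Finset (Fin m) → Fin m) (lam : Finset (Fin m) → K)
    (χ : Fin e → ZMod p → ℂ) (I : Finset (Fin m)) : Submodule ℂ ((Fin m → K) → ℂ) where
  carrier := {ξ | (∀ y, y ∉ sp K I → ξ y = 0) ∧ ∀ B : Finset (Fin m), B ⊆ I → B.card = d →
    ∀ y ∈ sp K I, (el d o B y = 0 → ξ y = 0) ∧
      ∀ j, ∑ t : ZMod p, χ j t * ξ (mv d o lam B (algebraMap (ZMod p) K t) y) = 0}
  add_mem' := by
    rintro ξ ξ' ⟨h1, h2⟩ ⟨h1', h2'⟩
    refine ⟨fun y hy => ?_, fun B hB hBd y hy => ⟨fun h => ?_, fun j => ?_⟩⟩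
    · rw [Pi.add_apply, h1 y hy, h1' y hy, add_zero]
    · rw [Pi.add_apply, (h2 B hB hBd y hy).1 h, (h2' B hB hBd y hy).1 h, add_zero]
    · simp only [Pi.add_apply, mul_add, sum_add_distrib]
      rw [(h2 B hB hBd y hy).2 j, (h2' B hB hBd y hy).2 j, add_zero]
  zero_mem' := by
    refine ⟨fun y hy => rfl, fun B hB hBd y hy => ⟨fun h => rfl, fun j => ?_⟩⟩
    simp
  smul_mem' := by
    rintro c ξ ⟨h1, h2⟩
    refine ⟨fun y hy => ?_, fun B hB hBd y hy => ⟨fun h => ?_, fun j => ?_⟩⟩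
    · rw [Pi.smul_apply, h1 y hy, smul_zero]
    · rw [Pi.smul_apply, (h2 B hB hBd y hy).1 h, smul_zero]
    · have h3 : ∀ t : ZMod p, χ j t * (c • ξ) (mv d o lam B (algebraMap (ZMod p) K t) y) =
          c * (χ j t * ξ (mv d o lam B (algebraMap (ZMod p) K t) y)) := by
        intro t
        rw [Pi.smul_apply, smul_eq_mul]
        ring
      rw [sum_congr rfl (fun t _ => h3 t), ← mul_sum, (h2 B hB hBd y hy).2 j, mul_zero]

/-- Two uses of the bound for the characters. -/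
theorem two_cod {m : ℕ} {K : Type} [Field K] [Fintype K] [DecidableEq K] {p d e k : ℕ}
    [Algebra (ZMod p) K] [NeZero p] {o : Finset (Fin m) → Fin m} {lam : Finset (Fin m) → K}
    {χ : Fin e → ZMod p → ℂ} {I : Finset (Fin m)}
    (hχ : ∀ f : ZMod p → ℂ, (∀ j, ∑ t, χ j t * f t = 0) →
        (p : ℝ) * ‖f 0‖ ^ 2 ≤ k * ∑ t, ‖f t‖ ^ 2) (hI : I.card = 2 * d)
    {ξ : (Fin m → K) → ℂ} (hξ : ξ ∈ XI K p d e o lam χ I) {y : Fin m → K} (hy : y ∈ sp K I)
    {B : Finset (Fin m)} (hB : B ⊆ I) (hBd : B.card = d) :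
    (p : ℝ) ^ 2 * ‖ξ y‖ ^ 2 ≤ (k : ℝ) ^ 2 * ∑ t : ZMod p, ∑ t' : ZMod p,
      ‖ξ (mv d o lam B (algebraMap (ZMod p) K t)
        (mv d o lam (I \ B) (algebraMap (ZMod p) K t') y))‖ ^ 2 := by
  have hC : I \ B ⊆ I := sdiff_subset
  have hCd : (I \ B).card = d := by
    rw [card_sdiff_of_subset hB, hI, hBd]
    omega
  have h1 : ∀ (B' : Finset (Fin m)), B' ⊆ I → B'.card = d → ∀ y' ∈ sp K I,
      (p : ℝ) * ‖ξ y'‖ ^ 2 ≤ k * ∑ t : ZMod p,
        ‖ξ (mv d o lam B' (algebraMap (ZMod p) K t) y')‖ ^ 2 := by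
    intro B' hB' hBd' y' hy'
    have h := hχ (fun t => ξ (mv d o lam B' (algebraMap (ZMod p) K t) y'))
      (fun j => (hξ.2 B' hB' hBd' y' hy').2 j)
    simp only [map_zero, mv_zero] at h
    exact h
  have hst : ∀ t' : K, mv d o lam (I \ B) t' y ∈ sp K I := by
    intro t'
    rw [mem_sp] at hy ⊢
    intro i hi
    unfold mv
    have hi2 : i ∉ I \ B := fun h => hi (mem_sdiff.1 h).1
    rw [if_neg hi2]
    exact hy i hi
  have h2 := h1 (I \ B) hC hCd y hy
  have h3 : (p : ℝ) * ∑ t' : ZMod p, ‖ξ (mv d o lam (I \ B) (algebraMap (ZMod p) K t') y)‖ ^ 2 ≤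
      k * ∑ t' : ZMod p, ∑ t : ZMod p, ‖ξ (mv d o lam B (algebraMap (ZMod p) K t)
        (mv d o lam (I \ B) (algebraMap (ZMod p) K t') y))‖ ^ 2 := by
    rw [mul_sum, mul_sum]
    exact sum_le_sum (fun t' _ => h1 B hB hBd _ (hst _))
  rw [sum_comm] at h3
  have hp : (0 : ℝ) ≤ p := Nat.cast_nonneg _
  have hk : (0 : ℝ) ≤ k := Nat.cast_nonneg _
  calc (p : ℝ) ^ 2 * ‖ξ y‖ ^ 2 = p * (p * ‖ξ y‖ ^ 2) := by ring
    _ ≤ p * (k * ∑ t' : ZMod p, ‖ξ (mv d o lam (I \ B) (algebraMap (ZMod p) K t') y)‖ ^ 2) :=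
        mul_le_mul_of_nonneg_left h2 hp
    _ = k * (p * ∑ t' : ZMod p, ‖ξ (mv d o lam (I \ B) (algebraMap (ZMod p) K t') y)‖ ^ 2) := by
        ring
    _ ≤ k * (k * ∑ t : ZMod p, ∑ t' : ZMod p, ‖ξ (mv d o lam B (algebraMap (ZMod p) K t)
        (mv d o lam (I \ B) (algebraMap (ZMod p) K t') y))‖ ^ 2) :=
        mul_le_mul_of_nonneg_left h3 hk
    _ = _ := by ring

/-- The restriction to `sp B × sp C` as a matrix. -/
def LM {m : ℕ} (K : Type) [Field K] [Fintype K] [DecidableEq K] (B C : Finset (Fin m)) :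
    ((Fin m → K) → ℂ) →ₗ[ℂ] ((Fin m → K) → (Fin m → K) → ℂ) where
  toFun ξ := fun x z => if x ∈ sp K B ∧ z ∈ sp K C then ξ (x + z) else 0
  map_add' ξ ξ' := by
    funext x z
    simp only [Pi.add_apply]
    split_ifs <;> simp
  map_smul' c ξ := by
    funext x z
    simp only [Pi.smul_apply, RingHom.id_apply]
    split_ifs <;> simp

/-- The use of MAT. -/
theorem use_mat (hMAT : MATStmt) {m : ℕ} (K : Type) [Field K] [Fintype K] [DecidableEq K]
    (B I : Finset (Fin m)) (hB : B ⊆ I) (X : Submodule ℂ ((Fin m → K) → ℂ))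
    (hX : ∀ ξ ∈ X, ∀ y, y ∉ sp K I → ξ y = 0) (a : ℕ)
    (ha : Module.finrank ℂ X < (a + 1) * (a + 1)) :
    ∃ (u v : Fin a → (Fin m → K) → ℂ), ∀ ξ ∈ X,
      (∀ i, ∀ z ∈ sp K (I \ B), ∑ x ∈ sp K B, u i x * ξ (x + z) = 0) →
      (∀ i, ∀ x ∈ sp K B, ∑ z ∈ sp K (I \ B), v i z * ξ (x + z) = 0) → ξ = 0 := by
  obtain ⟨u, v, huv⟩ := hMAT (Fin m → K) (Fin m → K) (X.map (LM K B (I \ B))) a a
    (lt_of_le_of_lt (Submodule.finrank_map_le _ _) ha)
  refine ⟨u, v, fun ξ hξ h1 h2 => ?_⟩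
  have h3 : LM K B (I \ B) ξ = 0 := by
    refine huv _ (Submodule.mem_map_of_mem hξ) (fun i z => ?_) (fun j x => ?_)
    · by_cases hz : z ∈ sp K (I \ B)
      · rw [← h1 i z hz]
        have h4 : ∀ x, u i x * LM K B (I \ B) ξ x z =
            if x ∈ sp K B then u i x * ξ (x + z) else 0 := by
          intro x
          change u i x * (if x ∈ sp K B ∧ z ∈ sp K (I \ B) then ξ (x + z) else 0) = _
          by_cases hx : x ∈ sp K B
          · simp [hx, hz]
          · simp [hx]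
        rw [sum_congr rfl (fun x _ => h4 x), ← sum_filter]
        refine sum_congr ?_ (fun _ _ => rfl)
        ext x
        simp
      · refine sum_eq_zero (fun x _ => ?_)
        change u i x * (if x ∈ sp K B ∧ z ∈ sp K (I \ B) then ξ (x + z) else 0) = _
        simp [hz]
    · by_cases hx : x ∈ sp K B
      · rw [← h2 j x hx]
        have h4 : ∀ z, LM K B (I \ B) ξ x z * v j z =
            if z ∈ sp K (I \ B) then v j z * ξ (x + z) else 0 := by
          intro z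
          change (if x ∈ sp K B ∧ z ∈ sp K (I \ B) then ξ (x + z) else 0) * v j z = _
          by_cases hz : z ∈ sp K (I \ B)
          · simp [hx, hz, mul_comm]
          · simp [hz]
        rw [sum_congr rfl (fun z _ => h4 z), ← sum_filter]
        refine sum_congr ?_ (fun _ _ => rfl)
        ext x
        simp
      · refine sum_eq_zero (fun z _ => ?_)
        change (if x ∈ sp K B ∧ z ∈ sp K (I \ B) then ξ (x + z) else 0) * v j z = _
        simp [hx]
  funext y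
  by_cases hy : y ∈ sp K I
  · have hx : B.piecewise y 0 ∈ sp K B := mem_sp.2 (fun i hi => by simp [hi])
    have hz : (I \ B).piecewise y 0 ∈ sp K (I \ B) := mem_sp.2 (fun i hi => by
      rw [piecewise_eq_of_notMem _ _ _ hi]; rfl)
    have hxz : B.piecewise y 0 + (I \ B).piecewise y 0 = y := by
      funext i
      rw [Pi.add_apply]
      by_cases hi : i ∈ B
      · have : i ∉ I \ B := fun h => (mem_sdiff.1 h).2 hi
        rw [piecewise_eq_of_mem _ _ _ hi, piecewise_eq_of_notMem _ _ _ this]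
        simp
      · by_cases hi2 : i ∈ I
        · have : i ∈ I \ B := mem_sdiff.2 ⟨hi2, hi⟩
          rw [piecewise_eq_of_notMem _ _ _ hi, piecewise_eq_of_mem _ _ _ this]
          simp
        · have : i ∉ I \ B := fun h => hi2 (mem_sdiff.1 h).1
          rw [piecewise_eq_of_notMem _ _ _ hi, piecewise_eq_of_notMem _ _ _ this]
          simp [mem_sp.1 hy i hi2]
    have h5 := congrFun (congrFun h3 (B.piecewise y 0)) ((I \ B).piecewise y 0)
    change (if B.piecewise y 0 ∈ sp K B ∧ (I \ B).piecewise y 0 ∈ sp K (I \ B) then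
      ξ (B.piecewise y 0 + (I \ B).piecewise y 0) else 0) = 0 at h5
    rw [if_pos ⟨hx, hz⟩, hxz] at h5
    exact h5
  · exact hX ξ hξ y hy

/-- Splitting a vector. -/
theorem split_sp {m : ℕ} {K : Type} [Field K] [Fintype K] [DecidableEq K]
    {B I : Finset (Fin m)} {y : Fin m → K} (hy : y ∈ sp K I) :
    ∃ x ∈ sp K B, ∃ z ∈ sp K (I \ B), y = x + z := by
  refine ⟨B.piecewise y 0, mem_sp.2 (fun i hi => by simp [hi]), (I \ B).piecewise y 0,
    mem_sp.2 (fun i hi => by rw [piecewise_eq_of_notMem _ _ _ hi]; rfl), ?_⟩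
  funext i
  rw [Pi.add_apply]
  by_cases hi : i ∈ B
  · have : i ∉ I \ B := fun h => (mem_sdiff.1 h).2 hi
    rw [piecewise_eq_of_mem _ _ _ hi, piecewise_eq_of_notMem _ _ _ this]
    simp
  · by_cases hi2 : i ∈ I
    · have : i ∈ I \ B := mem_sdiff.2 ⟨hi2, hi⟩
      rw [piecewise_eq_of_notMem _ _ _ hi, piecewise_eq_of_mem _ _ _ this]
      simp
    · have : i ∉ I \ B := fun h => hi2 (mem_sdiff.1 h).1
      rw [piecewise_eq_of_notMem _ _ _ hi, piecewise_eq_of_notMem _ _ _ this]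
      simp [mem_sp.1 hy i hi2]

/-- The conditions of ORB in all directions. -/
theorem mem_XI {m : ℕ} {K : Type} [Field K] [Fintype K] [DecidableEq K] {p d e : ℕ}
    [Algebra (ZMod p) K] [NeZero p] {o : Finset (Fin m) → Fin m} {lam : Finset (Fin m) → K}
    {χ : Fin e → ZMod p → ℂ} {I : Finset (Fin m)} {s : Finset (Fin m) → ℕ}
    {g : ∀ B : Finset (Fin m), Fin (s B) → (Fin m → K) → ℂ}
    (hd : 1 ≤ d) (ho : ∀ B : Finset (Fin m), B.Nonempty → o B ∈ B)
    (hg : ∀ B : Finset (Fin m), B.card = d → ∀ (ξ : (Fin m → K) → ℂ) (z : Fin m → K),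
      (∀ i ∈ B, z i = 0) → (∀ j, ∑ x ∈ sp K B, g B j x * ξ (x + z) = 0) →
        ∀ x ∈ sp K B, (el d o B x = 0 → ξ (x + z) = 0) ∧
          ∀ j, ∑ t : ZMod p, χ j t * ξ (mv d o lam B (algebraMap (ZMod p) K t) x + z) = 0)
    {ξ : (Fin m → K) → ℂ} (h0 : ∀ y, y ∉ sp K I → ξ y = 0)
    (h1 : ∀ B : Finset (Fin m), B ⊆ I → B.card = d → ∀ j, ∀ z ∈ sp K (I \ B),
      ∑ x ∈ sp K B, g B j x * ξ (x + z) = 0) :
    ξ ∈ XI K p d e o lam χ I := by
  refine ⟨h0, fun B hB hBd y hy => ?_⟩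
  obtain ⟨x, hx, z, hz, rfl⟩ := split_sp (B := B) hy
  have hzB : ∀ i ∈ B, z i = 0 := fun i hi => mem_sp.1 hz i (fun h => (mem_sdiff.1 h).2 hi)
  have hoB : o B ∈ B := ho B (card_pos.1 (by omega))
  obtain ⟨h2, h3⟩ := hg B hBd ξ z hzB (fun j => h1 B hB hBd j z hz) x hx
  refine ⟨fun h => h2 ?_, fun j => ?_⟩
  · rwa [el_add B x z hzB hoB] at h
  · rw [← h3 j]
    refine sum_congr rfl (fun t _ => ?_)
    rw [mv_add B _ x z hzB hoB]

theorem choose_two (d : ℕ) (hd : 1 ≤ d) :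
    (2 * d).choose d = 2 * (2 * d - 1).choose (d - 1) := by
  obtain ⟨e, rfl⟩ : ∃ e, d = e + 1 := ⟨d - 1, by omega⟩
  have h1 : 2 * (e + 1) = (2 * e + 1) + 1 := by ring
  have h2 : 2 * (e + 1) - 1 = 2 * e + 1 := by omega
  rw [h2, h1, Nat.choose_succ_succ, Nat.add_sub_cancel]
  have h3 : (2 * e + 1).choose (e + 1) = (2 * e + 1).choose e := by
    have := Nat.choose_symm (n := 2 * e + 1) (k := e) (by omega)
    have h4 : 2 * e + 1 - e = e + 1 := by omega
    rw [h4] at this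
    exact this
  rw [h3]
  ring

theorem two_le (d : ℕ) (hd : 2 ≤ d) : 2 ≤ (2 * d - 1).choose (d - 1) := by
  have h1 := Nat.four_pow_le_two_mul_self_mul_centralBinom d (by omega)
  rw [Nat.centralBinom_eq_two_mul_choose, choose_two d (by omega)] at h1
  have h2 : 4 * d ≤ 4 ^ d := by
    have h3 : ∀ e : ℕ, 4 * (e + 2) ≤ 4 ^ (e + 2) := by
      intro e
      induction e with
      | zero => norm_num
      | succ e ih =>
        have : 4 ^ (e + 1 + 2) = 4 * 4 ^ (e + 2) := by ring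
        omega
    obtain ⟨e, rfl⟩ : ∃ e, d = e + 2 := ⟨d - 2, by omega⟩
    exact h3 e
  by_contra hcon
  have h4 : (2 * d - 1).choose (d - 1) ≤ 1 := by omega
  have h5 : 1 ≤ (2 * d - 1).choose (d - 1) := Nat.choose_pos (by omega)
  have h6 : (2 * d - 1).choose (d - 1) = 1 := le_antisymm h4 h5
  -- then `4 ^ d ≤ 4 d`, so `d ≤ 1`
  have h8 : 4 ^ d ≤ 4 * d := by
    rw [h6] at h1
    linarith
  have h7 : ∀ e : ℕ, 4 * (e + 2) < 4 ^ (e + 2) := by
    intro e
    induction e with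
    | zero => norm_num
    | succ e ih =>
      have : 4 ^ (e + 1 + 2) = 4 * 4 ^ (e + 2) := by ring
      omega
  obtain ⟨e, rfl⟩ : ∃ e, d = e + 2 := ⟨d - 2, by omega⟩
  exact absurd h8 (not_le.2 (h7 e))

/-- The choice of `p` and `k`. -/
theorem params (d : ℕ) (ε : ℝ) (hd : 2 ≤ d) (hε : 0 < ε) :
    ∃ p k : ℕ, p.Prime ∧ d < p ∧ 1 ≤ k ∧ k ≤ p ∧
      p ^ 2 + (2 * d - 1).choose (d - 1) * k ^ 2 ≤ (2 * d - 1).choose (d - 1) * p ^ 2 ∧
      1 - (k : ℝ) / p ≤ cc d + ε / 4 := by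
  set P := (2 * d - 1).choose (d - 1) with hP
  have hP2 : (2 : ℝ) ≤ P := by exact_mod_cast two_le d hd
  set u : ℝ := √(1 - 1 / P) with hu
  have h1P : (1 : ℝ) / P ≤ 1 / 2 := one_div_le_one_div_of_le (by norm_num) hP2
  have h0P : (0 : ℝ) < 1 / P := by positivity
  have hu2 : u ^ 2 = 1 - 1 / P := Real.sq_sqrt (by linarith)
  have hu0 : 0 ≤ u := Real.sqrt_nonneg _
  have hu1 : u ≤ 1 := by nlinarith
  have huh : 1 / 2 ≤ u := by nlinarith
  have hcc : cc d = 1 - u := by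
    unfold cc
    rw [choose_two d (by omega), ← hP, hu]
    congr 2
    push_cast
    field_simp
  obtain ⟨p, hp1, hp2⟩ := Nat.exists_infinite_primes (max (d + 1) (⌈4 / ε⌉₊ + 2))
  have hpd : d + 1 ≤ p := le_trans (le_max_left _ _) hp1
  have hpe : (⌈4 / ε⌉₊ : ℝ) + 2 ≤ p := by exact_mod_cast le_trans (le_max_right _ _) hp1
  have hpe2 : 4 / ε ≤ p := by
    have := Nat.le_ceil (4 / ε)
    linarith
  have hp0 : (0 : ℝ) < p := by exact_mod_cast hp2.pos
  have hpe3 : 1 / (p : ℝ) ≤ ε / 4 := by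
    rw [div_le_div_iff₀ hp0 (by norm_num)]
    rw [div_le_iff₀ hε] at hpe2
    linarith
  have hp2' : (2 : ℝ) ≤ p := by exact_mod_cast hp2.two_le
  refine ⟨p, ⌊u * p⌋₊, hp2, by omega, ?_, ?_, ?_, ?_⟩
  · rw [Nat.one_le_floor_iff]
    nlinarith
  · have : (⌊u * p⌋₊ : ℝ) ≤ p := (Nat.floor_le (by positivity)).trans (by nlinarith)
    exact_mod_cast this
  · have h1 : (⌊u * p⌋₊ : ℝ) ≤ u * p := Nat.floor_le (by positivity)
    have h2 : (⌊u * p⌋₊ : ℝ) ^ 2 ≤ (1 - 1 / P) * p ^ 2 := by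
      have h3 : (⌊u * p⌋₊ : ℝ) ^ 2 ≤ (u * p) ^ 2 :=
        pow_le_pow_left₀ (Nat.cast_nonneg _) h1 2
      rw [mul_pow, hu2] at h3
      exact h3
    have h4 : (p : ℝ) ^ 2 + P * (⌊u * p⌋₊ : ℝ) ^ 2 ≤ P * p ^ 2 := by
      have h5 : (P : ℝ) * (⌊u * p⌋₊ : ℝ) ^ 2 ≤ P * ((1 - 1 / P) * p ^ 2) :=
        mul_le_mul_of_nonneg_left h2 (by linarith)
      have h6 : (P : ℝ) * ((1 - 1 / P) * p ^ 2) = P * p ^ 2 - p ^ 2 := by
        have : (P : ℝ) ≠ 0 := by linarith
        field_simp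
      linarith
    exact_mod_cast h4
  · rw [hcc]
    have h1 : u * p - 1 < ⌊u * p⌋₊ := Nat.sub_one_lt_floor _
    have h2 : (⌊u * p⌋₊ : ℝ) / p ≥ u - 1 / p := by
      rw [ge_iff_le, le_div_iff₀ hp0]
      have : (u - 1 / p) * p = u * p - 1 := by field_simp
      linarith
    linarith

theorem piecewise_sp {m : ℕ} {K : Type} [Field K] [Fintype K] [DecidableEq K]
    {B : Finset (Fin m)} {x : Fin m → K} (hx : x ∈ sp K B) : B.piecewise x 0 = x := by
  funext i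
  by_cases hi : i ∈ B
  · simp [hi]
  · rw [piecewise_eq_of_notMem _ _ _ hi, mem_sp.1 hx i hi]
    rfl

/-- The family of generators of a set `B`. -/
def GG {m : ℕ} {K : Type} [Field K] (a : ℕ) (s1 : Finset (Fin m) → ℕ)
    (g1 : ∀ B : Finset (Fin m), Fin (s1 B) → (Fin m → K) → ℂ)
    (B1 : Finset (Fin m) → Finset (Fin m)) (u v : Finset (Fin m) → Fin a → (Fin m → K) → ℂ)
    (B : Finset (Fin m)) : Fin (s1 B) ⊕ (Finset (Fin m) × Fin a) → (Fin m → K) → ℂ
  | Sum.inl i => g1 B i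
  | Sum.inr c => fun y => if B = B1 c.1 then u c.1 c.2 (B.piecewise y 0) else
      if B = c.1 \ B1 c.1 then v c.1 c.2 (B.piecewise y 0) else 0

end KEYP

open KEYP in
/-- **KEY.** -/
theorem t_key (hCOD : CODStmt) (hORB : ORBStmt) (hFLD : FLDStmt) (hMAT : MATStmt)
    (hDUA : DUAStmt) (hDIM : DIMStmt) : KEYStmt := by
  intro d m ε hd hε
  rcases Nat.eq_zero_or_pos m with hm0 | hm
  · subst hm0
    refine ⟨Unit, inferInstance, fun _ => 0, fun _ _ _ => 0, by simp, ?_, ?_, ?_⟩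
    · intro B hB
      exfalso
      have := card_le_univ B
      simp at this
      simp [this] at hB
      omega
    · intro B j
      exact j.elim0
    · intro I hI
      exfalso
      have := card_le_univ I
      simp at this
      simp [this] at hI
      omega
  haveI : Nonempty (Fin m) := ⟨⟨0, hm⟩⟩
  obtain ⟨o, ho⟩ : ∃ o : Finset (Fin m) → Fin m, ∀ B : Finset (Fin m), B.Nonempty → o B ∈ B := by
    classical
    refine ⟨fun B => if h : B.Nonempty then h.choose else Classical.arbitrary _, fun B hB => ?_⟩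
    simp only [dif_pos hB]
    exact hB.choose_spec
  set om : Finset (Fin m) → ℕ := fun B => (Fintype.equivFin (Finset (Fin m)) B : ℕ) + 1 with hom
  have hom1 : ∀ B, 1 ≤ om B := fun B => by simp [hom]
  have hom2 : Function.Injective om := by
    intro B B' h
    have : (Fintype.equivFin (Finset (Fin m)) B : ℕ) = Fintype.equivFin (Finset (Fin m)) B' := by
      simpa [hom] using h
    exact (Fintype.equivFin _).injective (Fin.ext this)
  obtain ⟨p, k, hp, hdp, hk1, hkp, hpk, hu⟩ := params d ε hd hε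
  haveI : Fact p.Prime := ⟨hp⟩
  haveI : NeZero p := ⟨hp.ne_zero⟩
  obtain ⟨χ, hχ0, hχm, hχb⟩ := hCOD p k hkp
  set κ : ℝ := ε / (4 * 2 ^ m) with hκ
  have hκ0 : 0 < κ := by positivity
  obtain ⟨R, hR⟩ := exists_nat_one_div_lt (show (0 : ℝ) < κ ^ 2 / 4 by positivity)
  have hD : ∀ I : Finset (Fin m), ∃ (f : Polynomial (ZMod p)) (W : ℕ), f ≠ 0 ∧
      (I.card = 2 * d →
      ∀ (K : Type) [Field K] [Fintype K] [DecidableEq K] [Algebra (ZMod p) K] (z : K),
        Polynomial.aeval z f ≠ 0 →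
        ∀ X : Submodule ℂ ((Fin m → K) → ℂ), (∀ ξ ∈ X, ∀ y, y ∉ sp K I → ξ y = 0) →
          (∀ ξ ∈ X, ∀ y ∈ sp K I, ∀ B : Finset (Fin m), B ⊆ I → B.card = d →
            (p : ℝ) ^ 2 * ‖ξ y‖ ^ 2 ≤ (k : ℝ) ^ 2 * ∑ t : ZMod p, ∑ t' : ZMod p,
              ‖ξ (mv d o (fun B => z ^ om B) B (algebraMap (ZMod p) K t)
                (mv d o (fun B => z ^ om B) (I \ B) (algebraMap (ZMod p) K t') y))‖ ^ 2) →
          (Module.finrank ℂ X : ℝ) ≤ (Fintype.card K : ℝ) ^ (2 * d) / (R + 1) +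
            W * (Fintype.card K : ℝ) ^ (2 * d - 1)) := by
    intro I
    by_cases hI : I.card = 2 * d
    · obtain ⟨f, W, hf, h⟩ := hDIM p k m d R o om I hd hdp hk1 hkp hI ho hom1 hom2 hpk
      exact ⟨f, W, hf, fun _ => h⟩
    · exact ⟨1, 0, one_ne_zero, fun h => absurd h hI⟩
  choose f W hf hDim using hD
  obtain ⟨K, iF, iT, iD, iA, z, hN, hz, hfz⟩ := hFLD p (∏ I, f I)
    (⌈4 / ε⌉₊ + ⌈4 * ((∑ I, W I : ℕ) : ℝ) / κ ^ 2⌉₊) (prod_ne_zero_iff.2 (fun I _ => hf I))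
  have hfI : ∀ I, Polynomial.aeval z (f I) ≠ 0 := by
    intro I
    rw [map_prod] at hfz
    exact prod_ne_zero_iff.1 hfz I (mem_univ _)
  set q : ℕ := Fintype.card K with hq
  have hq0 : 0 < q := Fintype.card_pos
  have hq0' : (0 : ℝ) < q := by exact_mod_cast hq0
  have hqN : (⌈4 / ε⌉₊ : ℝ) + ⌈4 * ((∑ I, W I : ℕ) : ℝ) / κ ^ 2⌉₊ ≤ q := by exact_mod_cast hN
  have hq1 : 4 / ε ≤ q := by
    have h1 := Nat.le_ceil (4 / ε)
    have h2 : (0 : ℝ) ≤ ⌈4 * ((∑ I, W I : ℕ) : ℝ) / κ ^ 2⌉₊ := Nat.cast_nonneg _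
    linarith
  have hq2 : 4 * ((∑ I, W I : ℕ) : ℝ) / κ ^ 2 ≤ q := by
    have h1 := Nat.le_ceil (4 * ((∑ I, W I : ℕ) : ℝ) / κ ^ 2)
    have h2 : (0 : ℝ) ≤ ⌈4 / ε⌉₊ := Nat.cast_nonneg _
    linarith
  set lam : Finset (Fin m) → K := fun B => z ^ om B with hlam
  have hO : ∀ B : Finset (Fin m), ∃ (s : ℕ) (g : Fin s → (Fin m → K) → ℂ),
      (∀ j, DependsOn (g j) (B : Set (Fin m))) ∧ (B.card = d →
      p * s ≤ (p - k) * q ^ d + p * q ^ (d - 1) ∧
      ∀ (ξ : (Fin m → K) → ℂ) (z : Fin m → K), (∀ i ∈ B, z i = 0) →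
        (∀ j, ∑ x ∈ sp K B, g j x * ξ (x + z) = 0) →
        ∀ x ∈ sp K B, (el d o B x = 0 → ξ (x + z) = 0) ∧
          ∀ j, ∑ t : ZMod p, χ j t * ξ (mv d o lam B (algebraMap (ZMod p) K t) x + z) = 0) := by
    intro B
    by_cases hB : B.card = d
    · obtain ⟨s, g, h1, h2, h3⟩ := hORB p m d (p - k) K o lam B χ hd hB
        (ho B (card_pos.1 (by omega))) (pow_ne_zero _ hz) hχ0 hχm
      exact ⟨s, g, h2, fun _ => ⟨h1, h3⟩⟩
    · exact ⟨0, fun j => j.elim0, fun j => j.elim0, fun h => absurd h hB⟩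
  choose s1 g1 hdep1 hO1 using hO
  have hB : ∀ I : Finset (Fin m), ∃ B, I.card = 2 * d → B ⊆ I ∧ B.card = d := by
    intro I
    by_cases hI : I.card = 2 * d
    · obtain ⟨B, h1, h2⟩ := exists_subset_card_eq (s := I) (n := d) (by omega)
      exact ⟨B, fun _ => ⟨h1, h2⟩⟩
    · exact ⟨∅, fun h => absurd h hI⟩
  choose B1 hB1 using hB
  set a : ℕ := ⌊κ * q ^ d⌋₊ with ha
  have ha1 : (a : ℝ) ≤ κ * q ^ d := Nat.floor_le (by positivity)
  have ha2 : κ * q ^ d < a + 1 := Nat.lt_floor_add_one _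
  have hfin : ∀ I : Finset (Fin m), I.card = 2 * d →
      Module.finrank ℂ (XI K p d (p - k) o lam χ I) < (a + 1) * (a + 1) := by
    intro I hI
    have h1 := hDim I hI K z (hfI I) (XI K p d (p - k) o lam χ I) (fun ξ hξ => hξ.1)
      (fun ξ hξ y hy B hB hBd => two_cod hχb hI hξ hy hB hBd)
    have h2 : (q : ℝ) ^ (2 * d) / (R + 1) ≤ κ ^ 2 / 4 * (q : ℝ) ^ (2 * d) := by
      rw [div_eq_mul_one_div, mul_comm]
      exact mul_le_mul_of_nonneg_right hR.le (by positivity)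
    have h3 : (W I : ℝ) * (q : ℝ) ^ (2 * d - 1) ≤ κ ^ 2 / 4 * (q : ℝ) ^ (2 * d) := by
      have h4 : (W I : ℝ) ≤ ((∑ I, W I : ℕ) : ℝ) := by
        exact_mod_cast single_le_sum (f := W) (fun _ _ => Nat.zero_le _) (mem_univ I)
      have h5 : (W I : ℝ) ≤ κ ^ 2 / 4 * q := by
        rw [div_le_iff₀ (by positivity)] at hq2
        nlinarith
      have h6 : (q : ℝ) ^ (2 * d) = q * (q : ℝ) ^ (2 * d - 1) := by
        rw [← pow_succ']
        congr 1
        omega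
      rw [h6, ← mul_assoc]
      exact mul_le_mul_of_nonneg_right h5 (by positivity)
    have h7 : (Module.finrank ℂ (XI K p d (p - k) o lam χ I) : ℝ) <
        ((a : ℝ) + 1) * ((a : ℝ) + 1) := by
      have h8 : (0 : ℝ) < κ ^ 2 * (q : ℝ) ^ (2 * d) := by positivity
      have h9 : κ ^ 2 * (q : ℝ) ^ (2 * d) = (κ * q ^ d) * (κ * q ^ d) := by
        rw [two_mul d, pow_add]
        ring
      have h10 : (κ * (q : ℝ) ^ d) * (κ * q ^ d) ≤ ((a : ℝ) + 1) * ((a : ℝ) + 1) :=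
        mul_le_mul ha2.le ha2.le (by positivity) (by positivity)
      calc (Module.finrank ℂ (XI K p d (p - k) o lam χ I) : ℝ)
          ≤ κ ^ 2 / 4 * (q : ℝ) ^ (2 * d) + κ ^ 2 / 4 * (q : ℝ) ^ (2 * d) := by
            refine h1.trans (add_le_add h2 h3)
        _ < κ ^ 2 * (q : ℝ) ^ (2 * d) := by nlinarith
        _ ≤ _ := by rw [h9]; exact h10
    exact_mod_cast h7
  have hM : ∀ I : Finset (Fin m), ∃ u v : Fin a → (Fin m → K) → ℂ, I.card = 2 * d →
      ∀ ξ ∈ XI K p d (p - k) o lam χ I,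
      (∀ i, ∀ z ∈ sp K (I \ B1 I), ∑ x ∈ sp K (B1 I), u i x * ξ (x + z) = 0) →
      (∀ i, ∀ x ∈ sp K (B1 I), ∑ z ∈ sp K (I \ B1 I), v i z * ξ (x + z) = 0) → ξ = 0 := by
    intro I
    by_cases hI : I.card = 2 * d
    · obtain ⟨u, v, h⟩ := use_mat hMAT K (B1 I) I (hB1 I hI).1 (XI K p d (p - k) o lam χ I)
        (fun ξ hξ => hξ.1) a (hfin I hI)
      exact ⟨u, v, fun _ => h⟩
    · exact ⟨0, 0, fun h => absurd h hI⟩
  choose u v huv using hM
  have hcard : ∀ B : Finset (Fin m), Fintype.card (Fin (s1 B) ⊕ (Finset (Fin m) × Fin a)) =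
      s1 B + 2 ^ m * a := by
    intro B
    simp
  let e : ∀ B : Finset (Fin m), Fin (s1 B + 2 ^ m * a) ≃ Fin (s1 B) ⊕ (Finset (Fin m) × Fin a) :=
    fun B => (Fintype.equivFinOfCardEq (hcard B)).symm
  have hdep : ∀ B j, DependsOn (GG a s1 g1 B1 u v B (e B j)) (B : Set (Fin m)) := by
    intro B j
    rcases e B j with i | c
    · exact hdep1 B i
    · intro y y' hyy
      have h1 : B.piecewise y 0 = B.piecewise y' 0 := by
        funext i
        by_cases hi : i ∈ B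
        · rw [piecewise_eq_of_mem _ _ _ hi, piecewise_eq_of_mem _ _ _ hi]
          exact hyy i hi
        · rw [piecewise_eq_of_notMem _ _ _ hi, piecewise_eq_of_notMem _ _ _ hi]
      change (if B = B1 c.1 then u c.1 c.2 (B.piecewise y 0) else
        if B = c.1 \ B1 c.1 then v c.1 c.2 (B.piecewise y 0) else 0) =
        (if B = B1 c.1 then u c.1 c.2 (B.piecewise y' 0) else
        if B = c.1 \ B1 c.1 then v c.1 c.2 (B.piecewise y' 0) else 0)
      rw [h1]
  refine ⟨K, iT, fun B => s1 B + 2 ^ m * a, fun B j => GG a s1 g1 B1 u v B (e B j), hq0, ?_,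
    hdep, ?_⟩
  · intro B hBd
    have h1 := (hO1 B hBd).1
    have hp0 : (0 : ℝ) < p := by exact_mod_cast hp.pos
    have h2 : (p : ℝ) * s1 B ≤ (p - k) * (q : ℝ) ^ d + p * (q : ℝ) ^ (d - 1) := by
      have h3 : ((p * s1 B : ℕ) : ℝ) ≤ (((p - k) * q ^ d + p * q ^ (d - 1) : ℕ) : ℝ) := by
        exact_mod_cast h1
      push_cast [Nat.cast_sub hkp] at h3
      exact h3
    have h3 : (s1 B : ℝ) ≤ (1 - k / p) * (q : ℝ) ^ d + (q : ℝ) ^ (d - 1) := by
      have h4 : (p : ℝ) * ((1 - k / p) * (q : ℝ) ^ d + (q : ℝ) ^ (d - 1)) =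
          (p - k) * (q : ℝ) ^ d + p * (q : ℝ) ^ (d - 1) := by
        field_simp
      rw [← h4] at h2
      exact le_of_mul_le_mul_left h2 hp0
    have h4 : (q : ℝ) ^ (d - 1) ≤ ε / 4 * (q : ℝ) ^ d := by
      have h5 : (q : ℝ) ^ d = q * (q : ℝ) ^ (d - 1) := by
        rw [← pow_succ']
        congr 1
        omega
      have h6 : 1 ≤ ε / 4 * q := by
        rw [div_le_iff₀ hε] at hq1
        linarith
      rw [h5, ← mul_assoc]
      have h7 : (0 : ℝ) ≤ (q : ℝ) ^ (d - 1) := by positivity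
      nlinarith
    have h5 : (2 : ℝ) ^ m * a ≤ ε / 4 * (q : ℝ) ^ d := by
      have h6 : (2 : ℝ) ^ m * (κ * q ^ d) = ε / 4 * (q : ℝ) ^ d := by
        rw [hκ]
        field_simp
      rw [← h6]
      exact mul_le_mul_of_nonneg_left ha1 (by positivity)
    have h6 : (1 - (k : ℝ) / p) * (q : ℝ) ^ d ≤ (cc d + ε / 4) * (q : ℝ) ^ d :=
      mul_le_mul_of_nonneg_right hu (by positivity)
    have h7 : (0 : ℝ) ≤ ε / 4 * (q : ℝ) ^ d := by positivity
    push_cast
    calc (s1 B : ℝ) + 2 ^ m * a ≤ ((cc d + ε / 4) * (q : ℝ) ^ d + ε / 4 * (q : ℝ) ^ d) +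
          ε / 4 * (q : ℝ) ^ d := by linarith
      _ ≤ (cc d + ε) * (q : ℝ) ^ d := by nlinarith
  · intro I hI φ hφ
    refine hDUA m d K I _ _ hdep ?_ φ hφ
    intro ξ hξ0 hξ
    have hmem : ξ ∈ XI K p d (p - k) o lam χ I := by
      refine mem_XI (g := g1) (by omega) ho (fun B hB => (hO1 B hB).2) hξ0 ?_
      intro B hBI hBd j z' hz'
      have h1 := hξ B (mem_powersetCard.2 ⟨hBI, hBd⟩) ((e B).symm (Sum.inl j)) z' hz'
      rw [Equiv.apply_symm_apply] at h1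
      exact h1
    refine huv I hI ξ hmem ?_ ?_
    · intro i z' hz'
      have h1 := hξ (B1 I) (mem_powersetCard.2 (hB1 I hI)) ((e (B1 I)).symm (Sum.inr (I, i))) z' hz'
      rw [Equiv.apply_symm_apply] at h1
      rw [← h1]
      refine sum_congr rfl (fun x hx => ?_)
      change _ = (if B1 I = B1 I then u I i ((B1 I).piecewise x 0) else _) * _
      rw [if_pos rfl, piecewise_sp hx]
    · intro i x hx
      have hC : I \ B1 I ⊆ I := sdiff_subset
      have hCd : (I \ B1 I).card = d := by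
        rw [card_sdiff_of_subset (hB1 I hI).1, hI, (hB1 I hI).2]
        omega
      have hCC : I \ (I \ B1 I) = B1 I := by
        exact Finset.sdiff_sdiff_eq_self (hB1 I hI).1
      have hne : I \ B1 I ≠ B1 I := by
        intro h
        have h2 : (I \ B1 I) ∩ B1 I = ∅ := by
          ext i
          simp
        rw [h, inter_self] at h2
        have h3 := (hB1 I hI).2
        rw [h2, card_empty] at h3
        omega
      have h1 := hξ (I \ B1 I) (mem_powersetCard.2 ⟨hC, hCd⟩)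
        ((e (I \ B1 I)).symm (Sum.inr (I, i))) x (by rw [hCC]; exact hx)
      rw [Equiv.apply_symm_apply] at h1
      rw [← h1]
      refine sum_congr rfl (fun y hy => ?_)
      change _ = (if I \ B1 I = B1 I then _ else if I \ B1 I = I \ B1 I then
        v I i ((I \ B1 I).piecewise y 0) else 0) * _
      rw [if_neg hne, if_pos rfl, piecewise_sp hy, add_comm]

end Pool.SQA
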