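import Mathlib
import Pool.Agent.H17.SQA.FIN
import Pool.Agent.H17.SQA.KEY
import Pool.Agent.H50.SQA.DIM
import Pool.Agent.H23.SQA.FIX
import Pool.Agent.H23.SQA.DUA
import Pool.Agent.H82.SQA.ORB
import Pool.Agent.H25.SQA.CWL
import Pool.Agent.H36.SQA.UPP
import Pool.Agent.H44.SQA.COD
import Pool.Agent.H51.SQA.FLD
import Pool.Agent.H65.SQA.CWB
import Pool.Agent.H45.SQA.MAT
import Pool.Agent.H78.SQA.MON
import Pool.Agent.H31.SQA.NRG
import Pool.Agent.H31.SQA.WIN
import Pool.Agent.H31.SQA.WRD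
import Pool.Agent.H61.SQA.TRD
import Pool.Agent.H49.FOS.TER
import Pool.Agent.H61.FOS.JAC
import Pool.Agent.H62.FOS.DOM

/-!
# SQA: assembly without row ASA
-/

set_option autoImplicit false

namespace Pool.SQA

open Pool.FOS

theorem all_key : KEYStmt :=
  t_key t_cod t_orb t_fld t_mat t_dua (t_dim t_nrg t_win t_wrd t_fix)

theorem all_fin (hASA : ASAStmt) : FINStmt :=
  t_fin (t_upp all_key hASA t_mon) t_trd t_cwb (t_cwl t_cwb t_mon) (t_ter t_jac t_dom)

end Pool.SQA
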