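import Mathlib
import Pool.Agent.H17.SQA.AllA
import Pool.Agent.H14.SQA.ASA

/-!
# SQA: assembly
-/

set_option autoImplicit false

namespace Pool.SQA

theorem all_main : FINStmt := all_fin t_asa

end Pool.SQA
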